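import Pool.Agent.Y72.Ea.Seq

/-!
# Elementary amenable subgroups
-/

set_option autoImplicit false

namespace Pool.Agent.Y72.Ea

open scoped commutatorElement

variable {G : Type*} [Group G]

/-- The elementary amenable subgroups of `G`: the least family of subgroups which contains the
trivial subgroup, contains `H` if it contains a normal subgroup `N` of `H` such that `H / N` is
commutative or finite, and is closed under directed unions. (By Chou and Osin this describes the
class of elementary amenable groups.) -/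
inductive EA : Subgroup G → Prop
  | bot : EA ⊥
  | ext (N H : Subgroup G) (hle : N ≤ H) (hn : ∀ h ∈ H, ∀ n ∈ N, h * n * h⁻¹ ∈ N)
      (hq : (∀ a ∈ H, ∀ b ∈ H, ⁅a, b⁆ ∈ N) ∨ (N.subgroupOf H).FiniteIndex) (hN : EA N) : EA H
  | dir (S : Set (Subgroup G)) (hne : S.Nonempty) (hd : DirectedOn (· ≤ ·) S)
      (hS : ∀ K ∈ S, EA K) : EA (sSup S)

/-- elementary amenable groups contain no copies of Thompson's group `F` -/
theorem EA.no_fseq {H : Subgroup G} (h : EA H) : ¬ ∃ x : ℕ → G, FSeq x ∧ ∀ j, x j ∈ H := by
  induction h with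
  | bot =>
    rintro ⟨x, hx, hxH⟩
    apply hx.2
    rw [Subgroup.mem_bot.1 (hxH 0), Subgroup.mem_bot.1 (hxH 1)]
  | ext N H hle hn hq hN ih =>
    rintro ⟨x, hx, hxH⟩
    apply ih
    refine descend hn ?_ hx hxH
    rcases hq with hq | hq
    · exact Or.inl hq
    · right
      intro a ha
      obtain ⟨m, hm0, _, hm⟩ := Subgroup.exists_pow_mem_of_index_ne_zero
        (H := N.subgroupOf H) hq.index_ne_zero ⟨a, ha⟩
      exact ⟨m, hm0, hm⟩
  | dir S hne hd hS ih =>
    rintro ⟨x, hx, hxH⟩
    obtain ⟨K0, hK0, h0⟩ := (Subgroup.mem_sSup_of_directedOn hne hd).1 (hxH 0)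
    obtain ⟨K1, hK1, h1⟩ := (Subgroup.mem_sSup_of_directedOn hne hd).1 (hxH 1)
    obtain ⟨K, hK, hK0', hK1'⟩ := hd K0 hK0 K1 hK1
    apply ih K hK
    refine ⟨x, hx, ?_⟩
    have key : ∀ j : ℕ, x (j + 1) ∈ K := by
      intro j
      induction j with
      | zero => exact hK1' h1
      | succ j ihj =>
        rw [← hx.1 0 (j + 1) (by omega)]
        exact K.mul_mem (K.mul_mem (K.inv_mem (hK0' h0)) ihj) (hK0' h0)
    intro j
    cases j with
    | zero => exact hK0' h0
    | succ j => exact key j

/-- If all commutative subgroups are centralized by their normalizers, there are no Heisenberg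
groups and no torsion, then all elementary amenable subgroups are commutative. -/
theorem EA.comm
    (hN : ∀ A : Subgroup G, (∀ a ∈ A, ∀ b ∈ A, a * b = b * a) →
      ∀ g : G, (∀ a ∈ A, g * a * g⁻¹ ∈ A) → (∀ a ∈ A, g⁻¹ * a * g ∈ A) →
      ∀ a ∈ A, g * a = a * g)
    (hH : ∀ b c z : G, z * b = b * z → z * c = c * z → b * c = z * (c * b) → z = 1)
    (htf : ∀ g : G, ∀ n : ℕ, n ≠ 0 → g ^ n = 1 → g = 1) {H : Subgroup G} (h : EA H) :
    ∀ a ∈ H, ∀ b ∈ H, a * b = b * a := by
  induction h with
  | bot =>
    intro a ha b hb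
    rw [Subgroup.mem_bot.1 ha, Subgroup.mem_bot.1 hb]
  | ext N H hle hn hq _ ih =>
    have hcen : ∀ g ∈ H, ∀ a ∈ N, g * a = a * g := by
      intro g hg
      refine hN N ih g (hn g hg) ?_
      intro a ha
      have := hn g⁻¹ (H.inv_mem hg) a ha
      rwa [inv_inv] at this
    intro a ha b hb
    rcases hq with hq | hq
    · have hz := hq a ha b hb
      have h1 := hH a b ⁅a, b⁆ (hcen a ha _ hz).symm (hcen b hb _ hz).symm (by
        rw [commutatorElement_def]; group)
      exact commutatorElement_eq_one_iff_mul_comm.1 h1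
    · have hle' : N.subgroupOf H ≤ Subgroup.center H := by
        intro y hy
        rw [Subgroup.mem_center_iff]
        intro g
        apply Subtype.ext
        exact hcen g.1 g.2 y.1 hy
      haveI : (N.subgroupOf H).FiniteIndex := hq
      haveI : (Subgroup.center H).FiniteIndex := Subgroup.finiteIndex_of_le hle'
      have h1 : MonoidHom.transferCenterPow H ⁅(⟨a, ha⟩ : H), ⟨b, hb⟩⁆ = 1 := by
        rw [map_commutatorElement]
        rw [commutatorElement_eq_one_iff_mul_comm]
        apply Subtype.ext
        have h5 := (MonoidHom.transferCenterPow H (⟨b, hb⟩ : H)).2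
        exact Subgroup.mem_center_iff.1 h5 _
      have h2 := congrArg (fun z : Subgroup.center H => ((z : H) : G)) h1
      simp only [MonoidHom.transferCenterPow_apply] at h2
      have h3 : (⁅a, b⁆ : G) ^ (Subgroup.center H).index = 1 := h2
      have h4 := htf _ _ Subgroup.FiniteIndex.index_ne_zero h3
      exact commutatorElement_eq_one_iff_mul_comm.1 h4
  | dir S hne hd hS ih =>
    intro a ha b hb
    obtain ⟨K0, hK0, h0⟩ := (Subgroup.mem_sSup_of_directedOn hne hd).1 ha
    obtain ⟨K1, hK1, h1⟩ := (Subgroup.mem_sSup_of_directedOn hne hd).1 hb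
    obtain ⟨K, hK, hK0', hK1'⟩ := hd K0 hK0 K1 hK1
    exact ih K hK a (hK0' h0) b (hK1' h1)

/-- subgroups which are solvable groups are elementary amenable -/
theorem EA.of_solvable {H : Subgroup G} (h : Group.IsSolvable H) : EA H := by
  obtain ⟨n, hn⟩ := h.solvable
  have key : ∀ k : ℕ, EA ((derivedSeries H (n - k)).map H.subtype) := by
    intro k
    induction k with
    | zero =>
      rw [Nat.sub_zero, hn, Subgroup.map_bot]
      exact EA.bot
    | succ k ih =>
      by_cases hk : n ≤ k
      · have : n - (k + 1) = n - k := by omega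
        rw [this]
        exact ih
      · have h1 : n - k = (n - (k + 1)) + 1 := by omega
        rw [h1] at ih
        refine EA.ext _ _ ?_ ?_ (Or.inl ?_) ih
        · exact Subgroup.map_mono (derivedSeries_antitone _ (Nat.le_succ _))
        · rintro _ ⟨u, hu, rfl⟩ _ ⟨v, hv, rfl⟩
          refine ⟨u * v * u⁻¹, ?_, rfl⟩
          exact (inferInstance : (derivedSeries H (n - (k + 1) + 1)).Normal).conj_mem v hv u
        · rintro _ ⟨u, hu, rfl⟩ _ ⟨v, hv, rfl⟩
          refine ⟨⁅u, v⁆, ?_, rfl⟩
          rw [SetLike.mem_coe, derivedSeries_succ]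
          exact Subgroup.commutator_mem_commutator hu hv
  have h0 := key n
  rw [Nat.sub_self, derivedSeries_zero] at h0
  have e : (⊤ : Subgroup H).map H.subtype = H := by
    rw [← MonoidHom.range_eq_map, Subgroup.range_subtype]
  rwa [e] at h0

end Pool.Agent.Y72.Ea
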