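import Pool.Agent.H599R3.SV.Fin
import Pool.Agent.Y72.Ea.Ind

/-!
# Elementary amenable subgroups of diagram groups
-/

set_option autoImplicit false

namespace Pool.Agent.Y72.Ea

open H540DG Pool.Agent.H599R3.RH Pool.Agent.H599R3.SV

open scoped commutatorElement

theorem thompson_f {G : Type} [Group G] (hs : ¬ ∃ x : ℕ → G, FSeq x) (T : G →* G) (x0 : G)
    (h : ∀ ξ, T (T ξ) = x0⁻¹ * T ξ * x0) : T (T x0) = T x0 := by
  let x : ℕ → G := fun n => (T^[n]) x0
  have hx0 : x 0 = x0 := rfl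
  have hx : ∀ n, x (n + 1) = T (x n) := fun n => Function.iterate_succ_apply' _ _ _
  have rel : ∀ i j, i < j → (x i)⁻¹ * x j * x i = x (j + 1) := by
    intro i
    induction i with
    | zero =>
      intro j hj
      obtain ⟨j, rfl⟩ : ∃ j', j = j' + 1 := ⟨j - 1, by omega⟩
      rw [hx0, hx (j + 1), hx j, h]
    | succ i ih =>
      intro j hj
      obtain ⟨j, rfl⟩ : ∃ j', j = j' + 1 := ⟨j - 1, by omega⟩
      have := congrArg T (ih j (by omega))
      rw [map_mul, map_mul, map_inv, ← hx, ← hx, ← hx] at this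
      exact this
  by_contra hne
  apply hs
  refine ⟨x, rel, ?_⟩
  intro hc
  apply hne
  have h1 : T (T x0) = x0⁻¹ * T x0 * x0 := h x0
  have h2 : x0 * T x0 = T x0 * x0 := hc
  rw [h1, mul_assoc, ← h2]
  group

section

variable {A : Type} {P : Pres A}

theorem idem_f (e : List A) (he : e ≠ []) (ε : U P) (hε : Pi e ε (e ++ e))
    (hs : ¬ ∃ x : ℕ → Dg P e, FSeq x) : False := by
  have hR0 : Pi e ε (e ++ (e ++ [])) := by simpa using hε
  have hL0 : Pi e ε ([] ++ (e ++ e)) := by simpa using hε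
  set R := cw hR0 with hR
  set L := cw hL0 with hL
  have hRi := cw_inj hR0
  have hLi := cw_inj hL0
  have h1 : Pi (e ++ e) (wh [] e ε) (e ++ (e ++ e)) := by
    have := hε.wh [] e
    simpa using this
  have h2 : Pi (e ++ e) (wh e [] ε) (e ++ (e ++ e)) := by
    have := hε.wh e []
    simpa using this
  let x0 : Dg P e := ⟨ε * wh [] e ε * (wh e [] ε)⁻¹ * ε⁻¹,
    (((hε.trans h1).trans h2.symm).trans hε.symm)⟩
  have hRR : ∀ ξ, R (R ξ) = x0⁻¹ * R ξ * x0 := by
    intro ξ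
    apply Subtype.ext
    have i1 := interchange hε ξ.2
    change ε * wh e [] (ε * wh e [] ξ.1 * ε⁻¹) * ε⁻¹ =
      (ε * wh [] e ε * (wh e [] ε)⁻¹ * ε⁻¹)⁻¹ * (ε * wh e [] ξ.1 * ε⁻¹) *
        (ε * wh [] e ε * (wh e [] ε)⁻¹ * ε⁻¹)
    calc ε * wh e [] (ε * wh e [] ξ.1 * ε⁻¹) * ε⁻¹
        = ε * wh e [] ε * wh (e ++ e) [] ξ.1 * (wh e [] ε)⁻¹ * ε⁻¹ := by
          rw [map_mul, map_mul, map_inv, wh_wh]
          simp only [List.nil_append]
          group
      _ = ε * wh e [] ε * ((wh [] e ε)⁻¹ * (wh [] e ε * wh (e ++ e) [] ξ.1)) *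
            (wh e [] ε)⁻¹ * ε⁻¹ := by group
      _ = ε * wh e [] ε * ((wh [] e ε)⁻¹ * (wh e [] ξ.1 * wh [] e ε)) *
            (wh e [] ε)⁻¹ * ε⁻¹ := by rw [i1]
      _ = _ := by group
  have hLL : ∀ ξ, L (L ξ) = (x0⁻¹)⁻¹ * L ξ * x0⁻¹ := by
    intro ξ
    apply Subtype.ext
    have i1 := interchange ξ.2 hε
    change ε * wh [] e (ε * wh [] e ξ.1 * ε⁻¹) * ε⁻¹ =
      ((ε * wh [] e ε * (wh e [] ε)⁻¹ * ε⁻¹)⁻¹)⁻¹ * (ε * wh [] e ξ.1 * ε⁻¹) *
        (ε * wh [] e ε * (wh e [] ε)⁻¹ * ε⁻¹)⁻¹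
    calc ε * wh [] e (ε * wh [] e ξ.1 * ε⁻¹) * ε⁻¹
        = ε * wh [] e ε * wh [] (e ++ e) ξ.1 * (wh [] e ε)⁻¹ * ε⁻¹ := by
          rw [map_mul, map_mul, map_inv, wh_wh]
          simp only [List.nil_append]
          group
      _ = ε * wh [] e ε * ((wh e [] ε)⁻¹ * (wh e [] ε * wh [] (e ++ e) ξ.1)) *
            (wh [] e ε)⁻¹ * ε⁻¹ := by group
      _ = ε * wh [] e ε * ((wh e [] ε)⁻¹ * (wh [] e ξ.1 * wh e [] ε)) *
            (wh [] e ε)⁻¹ * ε⁻¹ := by rw [i1]
      _ = _ := by group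
  have r1 := hRi (thompson_f hs R x0 hRR)
  have l1 := hLi (thompson_f hs L x0⁻¹ hLL)
  rw [map_inv, inv_inj] at l1
  have h3 : wh e [] x0.1 = wh [] e x0.1 := by
    have h4 := congrArg Subtype.val (r1.trans l1.symm)
    have h5 : ε * wh e [] x0.1 * ε⁻¹ = ε * wh [] e x0.1 * ε⁻¹ := h4
    exact mul_left_cancel (mul_right_cancel h5)
  have h4 : x0.1 = 1 := by
    have hi : Pi e (x0.1)⁻¹ e := (Dg P e).inv_mem x0.2
    refine (prod_inj (α := (x0.1)⁻¹) (β := x0.1) hi x0.2 ?_).2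
    rw [h3, map_inv, inv_mul_cancel]
  have h5 : wh [] e ε = wh e [] ε := by
    have h6 : ε * wh [] e ε * (wh e [] ε)⁻¹ * ε⁻¹ = 1 := h4
    have h7 : wh [] e ε * (wh e [] ε)⁻¹ = 1 := by
      have : wh [] e ε * (wh e [] ε)⁻¹ =
          ε⁻¹ * (ε * wh [] e ε * (wh e [] ε)⁻¹ * ε⁻¹) * ε := by group
      rw [this, h6]; group
    exact mul_inv_eq_one.1 h7
  have t1 : th ε e.length = e.length := by
    have := th_wh_le e [] ε (t := e.length) le_rfl
    rw [← h5, th_wh_right] at this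
    exact this
  have t2 := hε.th (t := 0) le_rfl
  rw [add_zero, add_zero] at t2
  have t3 := (th ε).injective (t2.trans t1.symm)
  simp only [List.length_append] at t3
  push_cast at t3
  have t4 : (0 : ℚ) < e.length := by exact_mod_cast List.length_pos_of_ne_nil he
  linarith


theorem fseq_map {G H : Type} [Group G] [Group H] (f : G →* H) (hf : Function.Injective f)
    {x : ℕ → G} (hx : FSeq x) : FSeq fun j => f (x j) := by
  refine ⟨fun i j hij => ?_, fun h => hx.2 ?_⟩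
  · rw [← map_inv, ← map_mul, ← map_mul, hx.1 i j hij]
  · apply hf
    rw [map_mul, map_mul]
    exact h

/-- finitely presented diagram groups without Thompson's group have finite algebraic dimension -/
theorem no_f_ad (w : List A) (hfp : FinPres (Dg P w)) (hs : ¬ ∃ x : ℕ → Dg P w, FSeq x) :
    ∃ n, AdLE (Dg P w) n := by
  obtain ⟨N, hN⟩ := bounded w hfp (by
    intro e B C ε g he hε hg
    apply idem_f e he ε hε
    rintro ⟨x, hx⟩
    exact hs ⟨_, fseq_map (cw hg) (cw_inj hg) hx⟩)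
  exact ⟨N, adLE_of_decLE hN⟩

/-- in a diagram group without large free abelian subgroups every commutative subgroup is
centralized by its normalizer -/
theorem cen_nor {w : List A} {n : ℕ} (had : AdLE (Dg P w) n) (N : Subgroup (Dg P w))
    (hc : ∀ x ∈ N, ∀ y ∈ N, x * y = y * x) (g : Dg P w) (hN1 : ∀ a ∈ N, g * a * g⁻¹ ∈ N)
    (hN2 : ∀ a ∈ N, g⁻¹ * a * g ∈ N) (a : Dg P w) (ha : a ∈ N) : g * a = a * g := by
  set Γ := N.map (Dg P w).subtype with hΓdef
  have hΓ : Ab w Γ := by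
    constructor
    · rintro _ ⟨x, hx, rfl⟩
      exact x.2
    · rintro _ ⟨x, hx, rfl⟩ _ ⟨y, hy, rfl⟩
      exact congrArg Subtype.val (hc x hx y hy)
  have hNz : Nz w Γ g.1 := by
    refine ⟨g.2, ?_, ?_⟩
    · rintro _ ⟨x, hx, rfl⟩
      exact ⟨g * x * g⁻¹, hN1 x hx, rfl⟩
    · rintro _ ⟨x, hx, rfl⟩
      exact ⟨g⁻¹ * x * g, hN2 x hx, rfl⟩
  have haΓ : a.1 ∈ Γ := ⟨a, ha, rfl⟩
  obtain ⟨K, hK, hgK⟩ := per hΓ hNz had haΓ
  set y := g.1 ^ K with hy
  have hgy : g.1 * y = y * g.1 := by rw [hy, ← pow_succ, ← pow_succ']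
  let T : Set (U P) := {x | x ∈ Γ ∧ y * x = x * y} ∪ {y}
  have hTw : ∀ x ∈ T, Pi w x w := by
    rintro x (⟨hx, -⟩ | hx)
    · exact hΓ.le x hx
    · rw [Set.mem_singleton_iff.1 hx]
      exact (Dg P w).pow_mem (x := g.1) g.2 K
  have hTc : ∀ x ∈ T, ∀ z ∈ T, x * z = z * x := by
    rintro x (⟨hx, hx'⟩ | hx) z (⟨hz, hz'⟩ | hz)
    · exact hΓ.comm x hx z hz
    · rw [Set.mem_singleton_iff.1 hz, hx']
    · rw [Set.mem_singleton_iff.1 hx, hz']
    · rw [Set.mem_singleton_iff.1 hx, Set.mem_singleton_iff.1 hz]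
  have hconj : ∀ h : U P, (∀ x ∈ T, h * x * h⁻¹ ∈ T) → ∀ x ∈ Subgroup.closure T,
      h * x * h⁻¹ ∈ Subgroup.closure T := by
    intro h hh x hx
    induction hx using Subgroup.closure_induction with
    | mem x hx => exact Subgroup.subset_closure (hh x hx)
    | one => rw [mul_one, mul_inv_cancel]; exact one_mem _
    | mul x z _ _ ihx ihz =>
      have : h * (x * z) * h⁻¹ = (h * x * h⁻¹) * (h * z * h⁻¹) := by group
      rw [this]
      exact mul_mem ihx ihz
    | inv x _ ih =>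
      have : h * x⁻¹ * h⁻¹ = (h * x * h⁻¹)⁻¹ := by group
      rw [this]
      exact inv_mem ih
  have hcomm1 : Subgroup.closure T ≤ Subgroup.centralizer T := by
    rw [Subgroup.closure_le]
    intro x hx
    rw [SetLike.mem_coe, Subgroup.mem_centralizer_iff]
    intro z hz
    exact hTc z hz x hx
  have hcomm2 : Subgroup.closure T ≤ Subgroup.centralizer (Subgroup.closure T : Set (U P)) := by
    rw [Subgroup.closure_le]
    intro x hx
    rw [SetLike.mem_coe, Subgroup.mem_centralizer_iff]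
    intro z hz
    exact ((Subgroup.mem_centralizer_iff.1 (hcomm1 hz)) x hx).symm
  have hΓ0 : Ab w (Subgroup.closure T) := by
    constructor
    · have : Subgroup.closure T ≤ Dg P w := by
        rw [Subgroup.closure_le]
        exact hTw
      exact this
    · intro x hx z hz
      exact ((Subgroup.mem_centralizer_iff.1 (hcomm2 hx)) z hz).symm
  have hyT : y ∈ T := Or.inr rfl
  have hNz0 : Nz w (Subgroup.closure T) g.1 := by
    refine ⟨g.2, hconj g.1 ?_, ?_⟩
    · rintro x (⟨hx, hx'⟩ | hx)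
      · left
        refine ⟨hNz.c1 x hx, ?_⟩
        calc y * (g.1 * x * g.1⁻¹) = (y * g.1) * x * g.1⁻¹ := by group
          _ = g.1 * (y * x) * g.1⁻¹ := by rw [← hgy]; group
          _ = g.1 * x * g.1⁻¹ * (g.1 * y) * g.1⁻¹ := by rw [hx']; group
          _ = g.1 * x * g.1⁻¹ * y := by rw [hgy]; group
      · right
        rw [Set.mem_singleton_iff.1 hx, hgy, mul_inv_cancel_right]
        rfl
    · have := hconj g.1⁻¹ (by
        rintro x (⟨hx, hx'⟩ | hx)
        · left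
          rw [inv_inv]
          refine ⟨hNz.c2 x hx, ?_⟩
          have hgy' : g.1⁻¹ * y = y * g.1⁻¹ := by
            rw [inv_mul_eq_iff_eq_mul, ← mul_assoc, hgy, mul_inv_cancel_right]
          calc y * (g.1⁻¹ * x * g.1) = (y * g.1⁻¹) * x * g.1 := by group
            _ = g.1⁻¹ * (y * x) * g.1 := by rw [← hgy']; group
            _ = g.1⁻¹ * x * (y * g.1) := by rw [hx']; group
            _ = g.1⁻¹ * x * g.1 * y := by rw [← hgy]; group
        · right
          rw [Set.mem_singleton_iff.1 hx, inv_inv, mul_assoc, ← hgy, inv_mul_cancel_left]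
          rfl)
      intro x hx
      have h1 := this x hx
      rwa [inv_inv] at h1
  have haT : a.1 ∈ T := by
    left
    refine ⟨haΓ, ?_⟩
    exact mul_inv_eq_iff_eq_mul.1 hgK
  have hfin := key hΓ0 hNz0 hK (Subgroup.subset_closure hyT) (Subgroup.subset_closure haT)
  apply Subtype.ext
  exact mul_inv_eq_iff_eq_mul.1 hfin


/-- elementary amenable subgroups of diagram groups without large free abelian subgroups -/
theorem ea_comm {w : List A} {n : ℕ} (had : AdLE (Dg P w) n) {H : Subgroup (Dg P w)}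
    (h : EA H) : ∀ a ∈ H, ∀ b ∈ H, a * b = b * a := by
  refine EA.comm ?_ ?_ ?_ h
  · intro A hA g h1 h2 a ha
    exact cen_nor had A hA g h1 h2 a ha
  · intro b c z h1 h2 h3
    apply Subtype.ext
    exact no_heis z.2 (congrArg Subtype.val h1) (congrArg Subtype.val h2)
      (congrArg Subtype.val h3)
  · intro g n hn hg
    apply Subtype.ext
    exact torsion_free g.2 hn (congrArg Subtype.val hg)

end

end Pool.Agent.Y72.Ea
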