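import Pool.Agent.Y72.Ea.Ind

/-!
# Thompson's group contains a solvable subgroup which is not commutative
-/

set_option autoImplicit false

namespace Pool.Agent.Y72.Ea

open scoped commutatorElement

variable {G : Type*} [Group G]

/-- a group generated by `a` and the pairwise commuting conjugates of `b` under the powers of `a`
is solvable -/
theorem wr_solvable {a b : G}
    (h : ∀ k : ℕ, b * (a ^ k * b * (a ^ k)⁻¹) = (a ^ k * b * (a ^ k)⁻¹) * b) :
    Group.IsSolvable (Subgroup.closure {a, b} : Subgroup G) := by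
  classical
  set T : Set G := Set.range fun k : ℤ => a ^ k * b * (a ^ k)⁻¹ with hT
  set N : Subgroup G := Subgroup.closure T with hN
  have hpos : ∀ (i : ℤ) (k : ℕ), (a ^ i * b * (a ^ i)⁻¹) * (a ^ (i + k) * b * (a ^ (i + k))⁻¹) =
      (a ^ (i + k) * b * (a ^ (i + k))⁻¹) * (a ^ i * b * (a ^ i)⁻¹) := by
    intro i k
    have e : a ^ (i + (k : ℤ)) * b * (a ^ (i + (k : ℤ)))⁻¹ =
        a ^ i * (a ^ k * b * (a ^ k)⁻¹) * (a ^ i)⁻¹ := by
      rw [zpow_add, zpow_natCast]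
      group
    rw [e]
    calc a ^ i * b * (a ^ i)⁻¹ * (a ^ i * (a ^ k * b * (a ^ k)⁻¹) * (a ^ i)⁻¹)
        = a ^ i * (b * (a ^ k * b * (a ^ k)⁻¹)) * (a ^ i)⁻¹ := by group
      _ = a ^ i * ((a ^ k * b * (a ^ k)⁻¹) * b) * (a ^ i)⁻¹ := by rw [h k]
      _ = _ := by group
  have hTc : ∀ x ∈ T, ∀ y ∈ T, x * y = y * x := by
    rintro _ ⟨i, rfl⟩ _ ⟨j, rfl⟩
    rcases le_total i j with hij | hij
    · obtain ⟨k, hk⟩ := Int.eq_ofNat_of_zero_le (sub_nonneg.2 hij)
      have : j = i + (k : ℤ) := by omega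
      rw [this]
      exact hpos i k
    · obtain ⟨k, hk⟩ := Int.eq_ofNat_of_zero_le (sub_nonneg.2 hij)
      have : i = j + (k : ℤ) := by omega
      rw [this]
      exact (hpos j k).symm
  have hcomm1 : Subgroup.closure T ≤ Subgroup.centralizer T := by
    rw [Subgroup.closure_le]
    intro x hx
    rw [SetLike.mem_coe, Subgroup.mem_centralizer_iff]
    intro z hz
    exact hTc z hz x hx
  have hcomm2 : Subgroup.closure T ≤ Subgroup.centralizer (Subgroup.closure T : Set G) := by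
    rw [Subgroup.closure_le]
    intro x hx
    rw [SetLike.mem_coe, Subgroup.mem_centralizer_iff]
    intro z hz
    exact ((Subgroup.mem_centralizer_iff.1 (hcomm1 hz)) x hx).symm
  have hNab : ∀ x ∈ N, ∀ y ∈ N, x * y = y * x := by
    intro x hx y hy
    exact ((Subgroup.mem_centralizer_iff.1 (hcomm2 hx)) y hy).symm
  -- conjugation by `a` and `a⁻¹`
  have hconj : ∀ (e : ℤ), ∀ x ∈ N, a ^ e * x * (a ^ e)⁻¹ ∈ N := by
    intro e x hx
    induction hx using Subgroup.closure_induction with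
    | mem x hx =>
      obtain ⟨k, rfl⟩ := hx
      apply Subgroup.subset_closure
      refine ⟨e + k, ?_⟩
      change a ^ (e + k) * b * (a ^ (e + k))⁻¹ = a ^ e * (a ^ k * b * (a ^ k)⁻¹) * (a ^ e)⁻¹
      rw [zpow_add]
      group
    | one => rw [mul_one, mul_inv_cancel]; exact one_mem _
    | mul x z _ _ ihx ihz =>
      have : a ^ e * (x * z) * (a ^ e)⁻¹ = (a ^ e * x * (a ^ e)⁻¹) * (a ^ e * z * (a ^ e)⁻¹) := by
        group
      rw [this]
      exact mul_mem ihx ihz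
    | inv x _ ih =>
      have : a ^ e * x⁻¹ * (a ^ e)⁻¹ = (a ^ e * x * (a ^ e)⁻¹)⁻¹ := by group
      rw [this]
      exact inv_mem ih
  have hb : b ∈ N := Subgroup.subset_closure ⟨0, by simp⟩
  -- every element of the group is in `N * a ^ ℤ`
  have hform : ∀ x ∈ Subgroup.closure ({a, b} : Set G), ∃ e : ℤ, ∃ n ∈ N, x = n * a ^ e := by
    intro x hx
    induction hx using Subgroup.closure_induction with
    | mem x hx =>
      rcases hx with hx | hx
      · exact ⟨1, 1, one_mem _, by rw [hx]; simp⟩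
      · exact ⟨0, b, hb, by rw [Set.mem_singleton_iff.1 hx]; simp⟩
    | one => exact ⟨0, 1, one_mem _, by simp⟩
    | mul x z _ _ ihx ihz =>
      obtain ⟨e, n, hn, rfl⟩ := ihx
      obtain ⟨f, m, hm, rfl⟩ := ihz
      refine ⟨e + f, n * (a ^ e * m * (a ^ e)⁻¹), mul_mem hn (hconj e m hm), ?_⟩
      rw [zpow_add]
      group
    | inv x _ ih =>
      obtain ⟨e, n, hn, rfl⟩ := ih
      refine ⟨-e, a ^ (-e) * n⁻¹ * (a ^ (-e))⁻¹, hconj (-e) _ (inv_mem hn), ?_⟩
      rw [zpow_neg]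
      group
  have hcN : ∀ x ∈ Subgroup.closure ({a, b} : Set G), ∀ y ∈ Subgroup.closure ({a, b} : Set G),
      ⁅x, y⁆ ∈ N := by
    intro x hx y hy
    obtain ⟨e, n, hn, rfl⟩ := hform x hx
    obtain ⟨f, m, hm, rfl⟩ := hform y hy
    have e1 : ⁅n * a ^ e, m * a ^ f⁆ = n * (a ^ e * m * (a ^ e)⁻¹) *
        (a ^ f * n * (a ^ f)⁻¹)⁻¹ * m⁻¹ := by
      rw [commutatorElement_def]
      have h1 : a ^ e * a ^ f = a ^ f * a ^ e := by
        rw [← zpow_add, ← zpow_add, add_comm]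
      calc n * a ^ e * (m * a ^ f) * (n * a ^ e)⁻¹ * (m * a ^ f)⁻¹
          = n * (a ^ e * m * (a ^ e)⁻¹) * (a ^ e * a ^ f) * (a ^ e)⁻¹ * n⁻¹ * (a ^ f)⁻¹ * m⁻¹ := by
            group
        _ = n * (a ^ e * m * (a ^ e)⁻¹) * (a ^ f * a ^ e) * (a ^ e)⁻¹ * n⁻¹ * (a ^ f)⁻¹ *
            m⁻¹ := by rw [h1]
        _ = _ := by group
    rw [e1]
    exact mul_mem (mul_mem (mul_mem hn (hconj e m hm)) (inv_mem (hconj f n hn))) (inv_mem hm)
  set H : Subgroup G := Subgroup.closure ({a, b} : Set G) with hH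
  refine ⟨⟨2, ?_⟩⟩
  have hd1 : ∀ x ∈ derivedSeries H 1, (x : G) ∈ N := by
    have : derivedSeries H 1 ≤ N.subgroupOf H := by
      rw [derivedSeries_succ, Subgroup.commutator_le]
      intro x _ y _
      exact hcN x.1 x.2 y.1 y.2
    intro x hx
    exact this hx
  rw [eq_bot_iff, derivedSeries_succ, Subgroup.commutator_le]
  intro x hx y hy
  rw [Subgroup.mem_bot, commutatorElement_eq_one_iff_mul_comm]
  apply Subtype.ext
  exact hNab x.1 (hd1 x hx) y.1 (hd1 y hy)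

/-- a copy of Thompson's group contains a solvable subgroup which is not commutative -/
theorem FSeq.solvable {x : ℕ → G} (hx : FSeq x) :
    ∃ H : Subgroup G, Group.IsSolvable H ∧ ∃ a ∈ H, ∃ b ∈ H, a * b ≠ b * a := by
  obtain ⟨hr, hne⟩ := hx
  set u : ℕ → G := fun i => x i * (x (i + 1))⁻¹ with hu
  -- shift
  have hs : ∀ i j : ℕ, i < j → (x i)⁻¹ * u j * x i = u (j + 1) := by
    intro i j hij
    have e : (x i)⁻¹ * u j * x i =
        ((x i)⁻¹ * x j * x i) * ((x i)⁻¹ * x (j + 1) * x i)⁻¹ := by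
      rw [hu]; group
    rw [e, hr i j hij, hr i (j + 1) (by omega)]
  -- `u i` commutes with `x j`, `j ≥ i + 2`
  have hc : ∀ i j : ℕ, i + 2 ≤ j → (u i)⁻¹ * x j * u i = x j := by
    intro i j hij
    obtain ⟨j, rfl⟩ : ∃ j', j = j' + 1 := ⟨j - 1, by omega⟩
    have h1 := hr i (j + 1) (by omega)
    have h2 := hr (i + 1) (j + 1) (by omega)
    have e : (u i)⁻¹ * x (j + 1) * u i =
        x (i + 1) * ((x i)⁻¹ * x (j + 1) * x i) * (x (i + 1))⁻¹ := by
      rw [hu]; group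
    rw [e, h1, ← h2]
    group
  have hcu : ∀ i j : ℕ, i + 2 ≤ j → u i * u j = u j * u i := by
    intro i j hij
    have h1 : (u i)⁻¹ * u j * u i = u j := by
      have e : (u i)⁻¹ * u j * u i =
          ((u i)⁻¹ * x j * u i) * ((u i)⁻¹ * x (j + 1) * u i)⁻¹ := by
        simp only [hu]; group
      rw [e, hc i j hij, hc i (j + 1) (by omega)]
    calc u i * u j = u i * ((u i)⁻¹ * u j * u i) := by rw [h1]
      _ = u j * u i := by group
  -- powers of `x 0`
  have hp : ∀ m j : ℕ, 1 ≤ j → (x 0 ^ m)⁻¹ * u j * x 0 ^ m = u (j + m) := by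
    intro m
    induction m with
    | zero => intro j _; simp
    | succ m ih =>
      intro j hj
      have h1 := ih j hj
      have h2 := hs 0 (j + m) (by omega)
      calc (x 0 ^ (m + 1))⁻¹ * u j * x 0 ^ (m + 1)
          = (x 0)⁻¹ * ((x 0 ^ m)⁻¹ * u j * x 0 ^ m) * x 0 := by rw [pow_succ]; group
        _ = (x 0)⁻¹ * u (j + m) * x 0 := by rw [h1]
        _ = u (j + m + 1) := h2
  refine ⟨Subgroup.closure {(x 0 ^ 2)⁻¹, u 1}, wr_solvable ?_, (x 0 ^ 2)⁻¹,
    Subgroup.subset_closure (by simp), u 1, Subgroup.subset_closure (by simp), ?_⟩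
  · intro k
    have e : ((x 0 ^ 2)⁻¹ ^ k) * u 1 * ((x 0 ^ 2)⁻¹ ^ k)⁻¹ = u (1 + 2 * k) := by
      rw [← hp (2 * k) 1 le_rfl, pow_mul, inv_pow, inv_inv]
    rw [e]
    rcases Nat.eq_zero_or_pos k with hk | hk
    · subst hk; rfl
    · exact hcu 1 (1 + 2 * k) (by omega)
  · intro hcom
    have h0 : u 3 = u 1 := by
      rw [← hp 2 1 le_rfl, hcom]
      group
    -- u 4 = (x 2)⁻¹ * x 1
    have h1 : u 4 = (x 2)⁻¹ * x 1 := by
      have := hs 1 3 (by omega)
      rw [h0] at this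
      rw [← this]
      simp only [hu]
      group
    have h2 : u 4 = u 2 := by
      rw [← hs 0 3 (by omega), h0, hs 0 1 (by omega)]
    have h3 : x 1 = x 2 * (x 2 * (x 3)⁻¹) := by
      have : (x 2)⁻¹ * x 1 = x 2 * (x 3)⁻¹ := by rw [← h1, h2]
      rw [← this]
      group
    have h4 : x 2 = x 3 := by
      have e1 : (x 1)⁻¹ * x 2 * x 1 = x 3 := hr 1 2 (by omega)
      rw [h3] at e1
      have e2 : x 3 * x 2 * (x 3)⁻¹ = x 3 := by
        have e0 : x 3 * x 2 * (x 3)⁻¹ =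
            (x 2 * (x 2 * (x 3)⁻¹))⁻¹ * x 2 * (x 2 * (x 2 * (x 3)⁻¹)) := by group
        rw [e0, e1]
      have e3 : x 3 * x 2 * (x 3)⁻¹ = x 3 * x 3 * (x 3)⁻¹ := by
        rw [e2]
        group
      exact mul_left_cancel (mul_right_cancel e3)
    have h5 : x 1 = x 2 := by
      have e1 := hr 0 1 (by omega)
      have e2 := hr 0 2 (by omega)
      have e3 : (x 0)⁻¹ * x 1 * x 0 = (x 0)⁻¹ * x 2 * x 0 := by rw [e1, e2, h4]
      exact mul_left_cancel (mul_right_cancel e3)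
    apply hne
    have e1 := hr 0 1 (by omega)
    rw [← h5] at e1
    calc x 0 * x 1 = x 0 * ((x 0)⁻¹ * x 1 * x 0) := by rw [e1]
      _ = x 1 * x 0 := by group

end Pool.Agent.Y72.Ea
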