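import Pool.Agent.Y72.Ea.Main
import Pool.Agent.Y72.Ea.Wr

/-!
# Diagram groups and idempotents
-/

set_option autoImplicit false

namespace Pool.Agent.Y72.Ea

open H540DG Pool.Agent.H599R3.RH Pool.Agent.H599R3.SV

variable {A : Type} {P : Pres A}

/-- The word `w` is equal modulo the presentation `P` to a word `B e C` whose factor `e` is a
nonempty word with `e = e e` modulo `P`. (Two words are equal modulo `P` if there is an edge path
between them in the Squier complex.) -/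
def HasIdem (P : Pres A) (w : List A) : Prop :=
  ∃ e B C : List A, e ≠ [] ∧ (∃ L : List (OE P), IsPath e L (e ++ e)) ∧
    ∃ L : List (OE P), IsPath w L (B ++ (e ++ C))

theorem hasIdem_fseq {w : List A} {G : Type} [Group G] (e : G ≃* Dg P w) (h : HasIdem P w) :
    ∃ x : ℕ → G, FSeq x := by
  obtain ⟨f, B, C, hf, ⟨L, hL⟩, M, hM⟩ := h
  by_contra hs
  have hg : Pi w (pv M) (B ++ (f ++ C)) := ⟨M, hM, rfl⟩
  refine idem_f f hf (pv L) ⟨L, hL, rfl⟩ ?_
  rintro ⟨x, hx⟩
  have h1 : FSeq fun j => cw hg (x j) := fseq_map (cw hg) (cw_inj hg) hx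
  exact hs ⟨_, fseq_map e.symm.toMonoidHom e.symm.injective h1⟩

theorem fp_idem {w : List A} {G : Type} [Group G] (e : G ≃* Dg P w)
    (hfp : Group.IsFinitelyPresented G) (hs : ¬ HasIdem P w) : ∃ n, AdLE G n := by
  have hfp' : FinPres (Dg P w) := by
    apply FinPres.congr e
    obtain ⟨n, φ, h1, R, h2, h3⟩ := hfp.out
    exact ⟨n, φ, h1, R, h2, h3⟩
  obtain ⟨N, hN⟩ := bounded w hfp' (by
    rintro f B C ε g he ⟨L, hL, -⟩ ⟨M, hM, -⟩
    exact hs ⟨f, B, C, he, ⟨L, hL⟩, M, hM⟩)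
  exact ⟨N, adLE_congr e.symm (adLE_of_decLE hN)⟩

end Pool.Agent.Y72.Ea
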