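import Pool.Agent.Y72.Ea.Dia

/-!
# Elementary amenable subgroups of diagram groups: groups isomorphic to diagram groups
-/

set_option autoImplicit false

namespace Pool.Agent.Y72.Ea

open H540DG Pool.Agent.H599R3.RH Pool.Agent.H599R3.SV

variable {A : Type} {P : Pres A}

theorem adLE_congr {G K : Type} [Group G] [Group K] (e : G ≃* K) {n : ℕ} (h : AdLE G n) :
    AdLE K n := by
  rintro m ⟨f, hf⟩
  apply h m
  refine ⟨e.symm.toMonoidHom.comp f, ?_⟩
  exact e.symm.injective.comp hf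

theorem nor_G {w : List A} {G : Type} [Group G] (e : G ≃* Dg P w) {n : ℕ} (had : AdLE G n)
    (N : Subgroup G) (hN : ∀ a ∈ N, ∀ b ∈ N, a * b = b * a) (g : G)
    (h1 : ∀ a ∈ N, g * a * g⁻¹ ∈ N) (h2 : ∀ a ∈ N, g⁻¹ * a * g ∈ N) (a : G) (ha : a ∈ N) :
    g * a = a * g := by
  apply e.injective
  rw [map_mul, map_mul]
  refine cen_nor (adLE_congr e had) (N.map e.toMonoidHom) ?_ (e g) ?_ ?_ (e a) ⟨a, ha, rfl⟩
  · rintro _ ⟨x, hx, rfl⟩ _ ⟨y, hy, rfl⟩
    change e x * e y = e y * e x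
    rw [← map_mul, ← map_mul, hN x hx y hy]
  · rintro _ ⟨x, hx, rfl⟩
    exact ⟨g * x * g⁻¹, h1 x hx, by simp⟩
  · rintro _ ⟨x, hx, rfl⟩
    exact ⟨g⁻¹ * x * g, h2 x hx, by simp⟩

theorem ea_G {w : List A} {G : Type} [Group G] (e : G ≃* Dg P w) {n : ℕ} (had : AdLE G n)
    {H : Subgroup G} (h : EA H) : ∀ a ∈ H, ∀ b ∈ H, a * b = b * a := by
  refine EA.comm ?_ ?_ ?_ h
  · intro N hN g h1 h2 a ha
    exact nor_G e had N hN g h1 h2 a ha
  · intro b c z h1 h2 h3
    apply e.injective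
    rw [map_one]
    apply Subtype.ext
    refine no_heis (e z).2 (b := (e b).1) (c := (e c).1) ?_ ?_ ?_
    · exact congrArg Subtype.val (by rw [← map_mul, ← map_mul, h1] : e z * e b = e b * e z)
    · exact congrArg Subtype.val (by rw [← map_mul, ← map_mul, h2] : e z * e c = e c * e z)
    · exact congrArg Subtype.val
        (by rw [← map_mul, ← map_mul, ← map_mul, h3] : e b * e c = e z * (e c * e b))
  · intro g n hn hg
    apply e.injective
    rw [map_one]
    apply Subtype.ext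
    have h1 : (e g) ^ n = 1 := by rw [← map_pow, hg, map_one]
    exact torsion_free (e g).2 hn (congrArg Subtype.val h1)

theorem fp_G {w : List A} {G : Type} [Group G] (e : G ≃* Dg P w)
    (hfp : Group.IsFinitelyPresented G) (hs : ¬ ∃ x : ℕ → G, FSeq x) : ∃ n, AdLE G n := by
  have hfp' : FinPres (Dg P w) := by
    apply FinPres.congr e
    obtain ⟨n, φ, h1, R, h2, h3⟩ := hfp.out
    exact ⟨n, φ, h1, R, h2, h3⟩
  obtain ⟨n, hn⟩ := no_f_ad w hfp' (by
    rintro ⟨x, hx⟩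
    exact hs ⟨_, fseq_map e.symm.toMonoidHom e.symm.injective hx⟩)
  exact ⟨n, adLE_congr e.symm hn⟩

end Pool.Agent.Y72.Ea
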