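import Mathlib

/-!
# Copies of Thompson's group `F` and elementary amenable subgroups
-/

set_option autoImplicit false

namespace Pool.Agent.Y72.Ea

open scoped commutatorElement

variable {G : Type*} [Group G]

/-- `x 0, x 1, x 2, ...` satisfy the relations of the standard generators of Thompson's group `F`,
and `x 0`, `x 1` do not commute (so they generate a copy of `F`, as all proper quotients of `F` are
commutative). -/
def FSeq (x : ℕ → G) : Prop :=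
  (∀ i j : ℕ, i < j → (x i)⁻¹ * x j * x i = x (j + 1)) ∧ x 0 * x 1 ≠ x 1 * x 0

/-- the conjugates `x a ... x (a + k) * (x (a + k) * (x (a + k + 1))⁻¹) * (x a ... x (a + k))⁻¹` -/
def cc (x : ℕ → G) : ℕ → ℕ → G
  | a, 0 => x a * (x a * (x (a + 1))⁻¹) * (x a)⁻¹
  | a, k + 1 => x a * cc x (a + 1) k * (x a)⁻¹

lemma cc_zero (x : ℕ → G) (a : ℕ) : cc x a 0 = x a * (x a * (x (a + 1))⁻¹) * (x a)⁻¹ := rfl

lemma cc_succ (x : ℕ → G) (a k : ℕ) : cc x a (k + 1) = x a * cc x (a + 1) k * (x a)⁻¹ := rfl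

lemma cc_shift {x : ℕ → G} (hx : ∀ i j : ℕ, i < j → (x i)⁻¹ * x j * x i = x (j + 1)) (i : ℕ) :
    ∀ k a : ℕ, i < a → (x i)⁻¹ * cc x a k * x i = cc x (a + 1) k := by
  obtain ⟨φ, hφ⟩ : ∃ φ : G →* G, ∀ g : G, (x i)⁻¹ * g * x i = φ g := by
    refine ⟨(MulAut.conj (x i)⁻¹).toMonoidHom, fun g => ?_⟩
    change _ = MulAut.conj (x i)⁻¹ g
    rw [MulAut.conj_apply, inv_inv]
  intro k
  induction k with
  | zero =>
    intro a ha
    rw [cc_zero, cc_zero]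
    simp only [hφ, map_mul, map_inv]
    simp only [← hφ]
    rw [hx i a ha, hx i (a + 1) (by omega)]
  | succ k ih =>
    intro a ha
    rw [cc_succ, cc_succ]
    simp only [hφ, map_mul, map_inv]
    simp only [← hφ]
    rw [hx i a ha, ih (a + 1) (by omega)]

lemma cc_rel {x : ℕ → G} (hx : ∀ i j : ℕ, i < j → (x i)⁻¹ * x j * x i = x (j + 1)) :
    ∀ p a q : ℕ, p < q → (cc x a p)⁻¹ * cc x a q * cc x a p = cc x a (q + 1) := by
  intro p
  induction p with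
  | zero =>
    intro a q hq
    obtain ⟨q, rfl⟩ : ∃ q', q = q' + 1 := ⟨q - 1, by omega⟩
    have h1 := cc_shift hx a q (a + 1) (by omega)
    have h2 : cc x (a + 1) (q + 1) = x (a + 1) * cc x (a + 2) q * (x (a + 1))⁻¹ := cc_succ _ _ _
    rw [cc_succ x a (q + 1), h2, ← h1, cc_zero, cc_succ]
    group
  | succ p ih =>
    intro a q hq
    obtain ⟨q, rfl⟩ : ∃ q', q = q' + 1 := ⟨q - 1, by omega⟩
    have h1 := ih (a + 1) q (by omega)
    rw [cc_succ x a (q + 1), ← h1, cc_succ, cc_succ]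
    group

lemma cc_mem {x : ℕ → G} {H N : Subgroup G} (hn : ∀ h ∈ H, ∀ n ∈ N, h * n * h⁻¹ ∈ N)
    (hxH : ∀ j, x j ∈ H) (hk : ∀ j, 1 ≤ j → (x j)⁻¹ * x (j + 1) ∈ N) :
    ∀ k a : ℕ, 1 ≤ a → cc x a k ∈ N := by
  intro k
  induction k with
  | zero =>
    intro a ha
    rw [cc_zero]
    apply hn _ (hxH a)
    have h1 := hn _ (hxH a) _ (N.inv_mem (hk a ha))
    have e : x a * ((x a)⁻¹ * x (a + 1))⁻¹ * (x a)⁻¹ = x a * (x (a + 1))⁻¹ := by group
    rwa [e] at h1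
  | succ k ih =>
    intro a ha
    rw [cc_succ]
    exact hn _ (hxH a) _ (ih (a + 1) (by omega))

lemma cc_ne {x : ℕ → G} (hx : FSeq x) : cc x 1 0 * cc x 1 1 ≠ cc x 1 1 * cc x 1 0 := by
  intro h
  obtain ⟨hr, hne⟩ := hx
  have h1 : cc x 1 1 = cc x 1 2 := by
    rw [← cc_rel hr 0 1 1 (by omega), mul_assoc, ← h]
    group
  have h2 : cc x 2 0 = cc x 2 1 := by
    have : x 1 * cc x 2 0 * (x 1)⁻¹ = x 1 * cc x 2 1 * (x 1)⁻¹ := h1
    exact mul_left_cancel (mul_right_cancel this)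
  have h3 : x 2 * (x 3)⁻¹ = x 3 * (x 3 * (x 4)⁻¹) * (x 3)⁻¹ := by
    have : x 2 * (x 2 * (x 3)⁻¹) * (x 2)⁻¹ = x 2 * (x 3 * (x 3 * (x 4)⁻¹) * (x 3)⁻¹) * (x 2)⁻¹ :=
      h2
    exact mul_left_cancel (mul_right_cancel this)
  have h4 : x 2 = x 3 * (x 3 * (x 4)⁻¹) := mul_right_cancel h3
  have h5 : x 3 = x 4 := by
    have e1 : (x 2)⁻¹ * x 3 * x 2 = x 4 := hr 2 3 (by omega)
    rw [h4] at e1
    have e2 : x 4 * x 3 * (x 4)⁻¹ = x 4 := by
      have e0 : x 4 * x 3 * (x 4)⁻¹ =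
          (x 3 * (x 3 * (x 4)⁻¹))⁻¹ * x 3 * (x 3 * (x 3 * (x 4)⁻¹)) := by group
      rw [e0, e1]
    have e3 : x 4 * x 3 * (x 4)⁻¹ = x 4 * x 4 * (x 4)⁻¹ := by
      rw [e2]
      group
    exact mul_left_cancel (mul_right_cancel e3)
  have h6 : x 2 = x 3 := by
    have e1 := hr 0 2 (by omega)
    have e2 := hr 0 3 (by omega)
    have e3 : (x 0)⁻¹ * x 2 * x 0 = (x 0)⁻¹ * x 3 * x 0 := by rw [e1, e2, h5]
    exact mul_left_cancel (mul_right_cancel e3)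
  have h7 : x 1 = x 2 := by
    have e1 := hr 0 1 (by omega)
    have e2 := hr 0 2 (by omega)
    have e3 : (x 0)⁻¹ * x 1 * x 0 = (x 0)⁻¹ * x 2 * x 0 := by rw [e1, e2, h6]
    exact mul_left_cancel (mul_right_cancel e3)
  apply hne
  have e1 := hr 0 1 (by omega)
  rw [← h7] at e1
  calc x 0 * x 1 = x 0 * ((x 0)⁻¹ * x 1 * x 0) := by rw [e1]
    _ = x 1 * x 0 := by group

lemma pow_shift {x : ℕ → G} (hr : ∀ i j : ℕ, i < j → (x i)⁻¹ * x j * x i = x (j + 1)) (m : ℕ) :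
    ∀ j : ℕ, 1 ≤ j → (x 0 ^ m)⁻¹ * x j * x 0 ^ m = x (j + m) := by
  induction m with
  | zero => intro j _; simp
  | succ m ih =>
    intro j hj
    have h1 := ih j hj
    have h2 := hr 0 (j + m) (by omega)
    rw [pow_succ, mul_inv_rev, ← h1] at *
    calc (x 0)⁻¹ * (x 0 ^ m)⁻¹ * x j * (x 0 ^ m * x 0)
        = (x 0)⁻¹ * ((x 0 ^ m)⁻¹ * x j * x 0 ^ m) * x 0 := by group
      _ = _ := h2

/-- Copies of `F` in a group lie, up to passing to a smaller copy, in every normal subgroup with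
commutative or finite quotient. -/
theorem descend {H N : Subgroup G} (hn : ∀ h ∈ H, ∀ n ∈ N, h * n * h⁻¹ ∈ N)
    (hq : (∀ a ∈ H, ∀ b ∈ H, ⁅a, b⁆ ∈ N) ∨ ∀ a ∈ H, ∃ m : ℕ, 1 ≤ m ∧ a ^ m ∈ N)
    {x : ℕ → G} (hx : FSeq x) (hxH : ∀ j, x j ∈ H) : ∃ z : ℕ → G, FSeq z ∧ ∀ j, z j ∈ N := by
  obtain ⟨hr, hne⟩ := hx
  have hk : ∀ j, 1 ≤ j → (x j)⁻¹ * x (j + 1) ∈ N := by
    intro j hj
    rcases hq with hq | hq
    · have h1 := hq _ (H.inv_mem (hxH j)) _ (H.inv_mem (hxH 0))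
      rw [commutatorElement_def, inv_inv, inv_inv] at h1
      have h2 := hr 0 j (by omega)
      rw [← h2]
      convert h1 using 1
      group
    · obtain ⟨m, hm, hmN⟩ := hq _ (hxH 0)
      have ha : ∀ i, 1 ≤ i → (x i)⁻¹ * x (i + m) ∈ N := by
        intro i hi
        rw [← pow_shift hr m i hi]
        have h1 := hn _ (H.inv_mem (hxH i)) _ (N.inv_mem hmN)
        have h2 := N.mul_mem h1 hmN
        convert h2 using 1
        group
      have h1 := hr j (j + m) (by omega)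
      have h2 := ha j hj
      have h3 := ha (j + 1) (by omega)
      -- x (j + m + 1) = a * x j = x (j + 1) * b
      have h4 := hn _ (H.inv_mem (hxH j)) _ h2
      have h5 := N.mul_mem h4 (N.inv_mem h3)
      have e : j + 1 + m = j + m + 1 := by omega
      rw [e, ← h1] at h5
      convert h5 using 1
      group
  refine ⟨fun k => cc x 1 k, ⟨fun i j hij => cc_rel hr i 1 j hij, cc_ne ⟨hr, hne⟩⟩, fun j =>
    cc_mem hn hxH hk j 1 le_rfl⟩

end Pool.Agent.Y72.Ea
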